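import Pool.Agent.MVO.StmtsV

/-!
# Squad MVO (MP_23468a_al), row GLV: gathering of two letter words, class Va
-/

set_option autoImplicit false

namespace Pool.Agent.MVO.H68

open Pool.Agent.Helper14_MV Pool.Agent.Helper2_MV Pool.Agent.MVO

theorem rr_trans' {β : FIC} {l m n : List ℕ} (h : RR β l m) (h' : RR β m n) : RR β l n :=
  β.trans h h'

theorem dedup_getLast (L : List ℕ) : L.dedup.getLast? = L.getLast? := by
  induction L with
  | nil => rfl
  | cons a l ih =>
    by_cases ha : a ∈ l
    · rw [List.dedup_cons_of_mem ha, ih]
      cases l with
      | nil => simp at ha
      | cons b l => rw [List.getLast?_cons_cons]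
    · rw [List.dedup_cons_of_notMem ha]
      cases l with
      | nil => rfl
      | cons b l =>
        rw [List.getLast?_cons_cons]
        have h1 : (b :: l).dedup ≠ [] := by
          intro h
          have h2 : b ∈ (b :: l).dedup := List.mem_dedup.2 (by simp)
          rw [h] at h2
          simp at h2
        obtain ⟨c, m, hm⟩ := List.exists_cons_of_ne_nil h1
        rw [hm, List.getLast?_cons_cons, ← hm, ih]

theorem gb_dedup (L : List ℕ) (e : Bool) (h : ∀ c ∈ L, c = 0 ∨ c = 1)
    (he : 0 ∈ L → 1 ∈ L → (e = false ↔ L.getLast? = some 1)) :
    gb (fun c => L.count c) L.dedup = bl (L.count 0) (L.count 1) e := by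
  have hnd : L.dedup.Nodup := List.nodup_dedup L
  have hmem : ∀ c, c ∈ L.dedup ↔ c ∈ L := fun c => List.mem_dedup
  have hlast := dedup_getLast L
  by_cases h0 : 0 ∈ L
  · by_cases h1 : 1 ∈ L
    · have hp : L.dedup.Perm [0, 1] := by
        rw [List.perm_ext_iff_of_nodup hnd (by simp)]
        intro a
        rw [hmem]
        constructor
        · intro ha
          rcases h a ha with rfl | rfl <;> simp
        · intro ha
          simp only [List.mem_cons, List.not_mem_nil, or_false] at ha
          rcases ha with rfl | rfl
          · exact h0
          · exact h1
      have hlen := hp.length_eq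
      match hD : L.dedup, hlen with
      | [a, b], _ =>
        rw [hD] at hp hlast hnd
        have hb : b = 0 ∨ b = 1 := by
          have : b ∈ L := (hmem b).1 (by rw [hD]; simp)
          exact h b this
        have ha : a = 0 ∨ a = 1 := by
          have : a ∈ L := (hmem a).1 (by rw [hD]; simp)
          exact h a this
        have hab : a ≠ b := by
          intro hab
          rw [hab] at hnd
          simp at hnd
        have hl2 : L.getLast? = some b := by
          rw [← hlast]
          rfl
        rcases hb with rfl | rfl
        · have ha1 : a = 1 := ha.resolve_left hab
          have he' : e = true := by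
            cases e with
            | true => rfl
            | false =>
              have h3 := (he h0 h1).1 rfl
              rw [hl2] at h3
              simp at h3
          rw [ha1, he']
          simp [gb, bl]
        · have ha1 : a = 0 := ha.resolve_right hab
          have he' : e = false := (he h0 h1).2 hl2
          rw [ha1, he']
          simp [gb, bl]
    · have hp : L.dedup.Perm [0] := by
        rw [List.perm_ext_iff_of_nodup hnd (by simp)]
        intro a
        rw [hmem]
        constructor
        · intro ha
          rcases h a ha with rfl | rfl
          · simp
          · exact absurd ha h1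
        · intro ha
          simp only [List.mem_singleton] at ha
          rw [ha]
          exact h0
      have hD := List.perm_singleton.1 hp
      rw [hD, List.count_eq_zero.2 h1]
      cases e <;> simp [gb, bl]
  · by_cases h1 : 1 ∈ L
    · have hp : L.dedup.Perm [1] := by
        rw [List.perm_ext_iff_of_nodup hnd (by simp)]
        intro a
        rw [hmem]
        constructor
        · intro ha
          rcases h a ha with rfl | rfl
          · exact absurd ha h0
          · simp
        · intro ha
          simp only [List.mem_singleton] at ha
          rw [ha]
          exact h1
      have hD := List.perm_singleton.1 hp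
      rw [hD, List.count_eq_zero.2 h0]
      cases e <;> simp [gb, bl]
    · have hL : L = [] := by
        rw [List.eq_nil_iff_forall_not_mem]
        intro a ha
        rcases h a ha with rfl | rfl
        · exact h0 ha
        · exact h1 ha
      subst hL
      cases e <;> simp [gb, bl]

theorem count_bl (p q : ℕ) (e : Bool) (c : ℕ) :
    (bl p q e).count c = (if c = 0 then p else 0) + (if c = 1 then q else 0) := by
  have h0 : (List.replicate p 0).count c = if c = 0 then p else 0 := by
    rw [List.count_replicate]
    by_cases hc : c = 0
    · simp [hc]
    · simp [hc, Ne.symm hc]
  have h1 : (List.replicate q 1).count c = if c = 1 then q else 0 := by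
    rw [List.count_replicate]
    by_cases hc : c = 1
    · simp [hc]
    · simp [hc, Ne.symm hc]
  cases e
  · simp only [bl, Bool.false_eq_true, if_false, List.count_append, h0, h1]
  · simp only [bl, if_true, List.count_append, h0, h1]
    omega

theorem glv (gbv : GbvStmt) : GlvStmt := by
  intro β hβ k B e hB01 h0 h1 he
  have key : ∀ s ≤ k + 1, RR β (asm k B)
      (asm k (fun j => if j < s then bl ((B j).count 0) ((B j).count 1) (e j) else B j)) := by
    intro s
    induction s with
    | zero =>
      intro _
      rw [asm_congr (B := fun j => if j < 0 then bl ((B j).count 0) ((B j).count 1) (e j) else B j)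
        (B' := B) (fun j _ => if_neg (Nat.not_lt_zero j))]
      exact RR.refl _
    | succ s ih =>
      intro hs
      have hR := ih (by omega)
      have hsk : s ≤ k := by omega
      set B' : ℕ → List ℕ :=
        fun j => if j < s then bl ((B j).count 0) ((B j).count 1) (e j) else B j with hB'
      have hBs : B' s = B s := if_neg (lt_irrefl s)
      have hcount : ∀ c ∈ B s, 2 ≤ (pre B' s ++ B s ++ suf B' s (k - s)).count c := by
        intro c hc
        have hc01 := hB01 s hsk c hc
        have hns : NS k c := by
          intro h
          rcases hc01 with rfl | rfl <;> omega
        have h1' : pre B' s ++ B s ++ suf B' s (k - s) = asm k B' := by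
          rw [asm_split hsk B', hBs]
        rw [h1', count_asm hns]
        have h2 : deg k (fun j => (B' j).count c) = deg k (fun j => (B j).count c) := by
          unfold deg
          refine Finset.sum_congr rfl fun j _ => ?_
          show (if j < s then bl ((B j).count 0) ((B j).count 1) (e j) else B j).count c =
            (B j).count c
          by_cases hj : j < s
          · rw [if_pos hj, count_bl]
            rcases hc01 with rfl | rfl <;> simp
          · rw [if_neg hj]
        rw [h2]
        rcases hc01 with rfl | rfl
        · exact h0
        · exact h1
      have hR0 := gbv β hβ (B s) (pre B' s) (suf B' s (k - s)) hcount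
      rw [gb_dedup (B s) (e s) (hB01 s hsk) (he s hsk)] at hR0
      refine rr_trans' hR ?_
      have h3 : asm k B' = pre B' s ++ B s ++ suf B' s (k - s) := by
        rw [asm_split hsk B', hBs]
      rw [h3]
      refine rr_trans' hR0 ?_
      rw [← asm_update hsk B']
      rw [asm_congr (B := Function.update B' s (bl ((B s).count 0) ((B s).count 1) (e s)))
        (B' := fun j => if j < s + 1 then bl ((B j).count 0) ((B j).count 1) (e j) else B j) ?_]
      · exact RR.refl _
      · intro j _
        by_cases hj : j = s
        · subst hj
          rw [Function.update_self, if_pos (Nat.lt_succ_self j)]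
        · rw [Function.update_of_ne hj]
          show (if j < s then bl ((B j).count 0) ((B j).count 1) (e j) else B j) = _
          by_cases hjs : j < s
          · rw [if_pos hjs, if_pos (by omega)]
          · rw [if_neg hjs, if_neg (by omega)]
  have hR := key (k + 1) (le_refl _)
  unfold w2
  rw [asm_congr (B := fun j => if j < k + 1 then bl ((B j).count 0) ((B j).count 1) (e j) else B j)
    (B' := fun j => bl ((B j).count 0) ((B j).count 1) (e j))
    (fun j hj => if_pos (by omega))] at hR
  exact hR

end Pool.Agent.MVO.H68
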